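import Pool.Agent.R924.SM.MAIN
import Pool.Agent.R924.SM.FIN
import Pool.Agent.R924.SM.QUO
import Pool.Agent.R924.SM.CE
import Pool.Agent.R924.SM.CONT
import Pool.Agent.R924.SM.NEAR
import Pool.Agent.R924.SM.DENS
import Pool.Agent.R924.SM.EXT
import Pool.Agent.R924.SM.BA1
import Pool.Agent.R924.SM.BAIRE
import Pool.Agent.R924.SM.CYL
import Pool.Agent.R924.SM.MARK
import Pool.Agent.R924.SM.GLUE
import Pool.Agent.R924.SM.COB
import Pool.Agent.R924.SM.WIN
import Pool.Agent.R924.SM.QQ
import Pool.Agent.R924.SM.DEC

open MeasureTheory Pool.Agent.R924.SM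

set_option autoImplicit false

namespace Pool.Agent.Results.MP_2967d5_an.BernoulliBase

/-- Negative answer to Q1: there is a transformation `R` of the non-atomic probability space
`XX = [0,1]^ℤ` such that the strongly mixing extensions of `R` on `XX × XX` do not form a set of
first category in the space of all extensions of `R` (weak topology). -/
theorem result : (∀ x : XX, mm {x} = 0) ∧
    ∃ R : GG mm, ¬ IsMeagre {T : {T : GG (mm.prod mm) // Ext R.out T.out} |
      StronglyMixing R.out T.1.out} := by
  have hW := WIN.main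
  have hCE := CE.main
  have hDE := DENS.main
  have hCO := CONT.main
  have hCY := CYL.main
  have hM : S_MAIN := Pool.Agent.R924.SM.main hCE hCO NEAR.main hDE hCY MARK.main
    (COB.main GLUE.main) (QQ.main hCE hW) (DEC.main hCE)
  exact ⟨hCY.2.2.2.2, cl RR, transfer (fin hM (BAIRE.main hCO BA1.main) (EXT.main hCE hDE))⟩

end Pool.Agent.Results.MP_2967d5_an.BernoulliBase
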